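import Pool.Agent.H26.Rect

set_option autoImplicit false

namespace Pool.Agent.Results.MP_46c3d4_gt.Lindelof

open Set Topology

universe u

/-- `X` is rectifiable: some homeomorphism `φ` of `X × X` preserves first coordinates and sends
`(x, x)` to `(x, e)`. -/
def Rectifiable (X : Type u) [TopologicalSpace X] : Prop :=
  ∃ (e : X) (φ : X × X ≃ₜ X × X), (∀ p : X × X, (φ p).1 = p.1) ∧ ∀ x : X, φ (x, x) = (x, e)

/-- Arhangel'skii's pluming condition in `βX` (a `p`-space is a Tychonoff space with it). -/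
def Pluming (X : Type u) [TopologicalSpace X] : Prop :=
  ∃ γ : ℕ → Set (Set (StoneCech X)), (∀ n, ∀ U ∈ γ n, IsOpen U) ∧
    (∀ n, ∀ x : X, ∃ U ∈ γ n, stoneCechUnit x ∈ U) ∧
    ∀ x : X, (⋂ n, ⋃₀ {U | U ∈ γ n ∧ stoneCechUnit x ∈ U}) ⊆
      Set.range (stoneCechUnit : X → StoneCech X)

/-- Countable Souslin number: every family of pairwise disjoint non-empty open sets is
countable. -/
def CountableSouslin (X : Type u) [TopologicalSpace X] : Prop :=
  ∀ 𝒰 : Set (Set X), (∀ U ∈ 𝒰, IsOpen U ∧ U.Nonempty) → 𝒰.PairwiseDisjoint id → 𝒰.Countable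

theorem q1 (X : Type u) [TopologicalSpace X] [T35Space X] (hr : Rectifiable X) (hp : Pluming X)
    (hc : CountableSouslin X) : LindelofSpace X := by
  obtain ⟨e, φ, h1, h2⟩ := hr
  obtain ⟨γ, h3, h4, h5⟩ := hp
  obtain ⟨G, hG⟩ := H26.Rect.exists_good e φ h1 h2 γ h3 h4 h5
  refine ⟨isLindelof_of_countable_subcover fun {ι} U hU hs => ?_⟩
  choose i hi using fun x => mem_iUnion.1 (hs (mem_univ x))
  obtain ⟨D, -, -, h8, h9⟩ := H26.Rect.main hG (fun x => U (i x)) fun x => (hU _).mem_nhds (hi x)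
  refine ⟨i '' D, (h9 fun n A hA => ?_).image _, by rw [biUnion_image, h8]⟩
  have hi : InjOn (fun x => {y | G n x y}) A := fun a ha b hb h => by
    by_contra hab
    exact disjoint_left.1 (hA ha hb hab) (hG.refl n a) (h.subset (hG.refl n a))
  refine countable_of_injective_of_countable_image hi (hc _ ?_ ?_)
  · rintro _ ⟨a, -, rfl⟩
    exact ⟨hG.op n a, a, hG.refl n a⟩
  · rintro _ ⟨a, ha, rfl⟩ _ ⟨b, hb, rfl⟩ h
    exact hA ha hb fun h' => h (by rw [h'])

/-- Every rectifiable `p`-space with countable Souslin number is Lindelöf (Q1); in particular every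
separable rectifiable `p`-space is Lindelöf (Q2 (a), hence (b)). -/
theorem result (X : Type u) [TopologicalSpace X] [T35Space X] (hr : Rectifiable X)
    (hp : Pluming X) :
    (CountableSouslin X → LindelofSpace X) ∧
      (TopologicalSpace.SeparableSpace X → LindelofSpace X) :=
  ⟨q1 X hr hp, fun _ => q1 X hr hp fun _ h h' =>
    h'.countable_of_isOpen (fun U hU => (h U hU).1) fun U hU => (h U hU).2⟩

end Pool.Agent.Results.MP_46c3d4_gt.Lindelof
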